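import Pool.Agent.Helper74.HG.GoalsG
import Pool.Agent.Helper99.HG.ZSP

/-!
# Project HG, part 3, packet ZSPG: specialisation of the global zeta function data
-/

set_option autoImplicit false

namespace Pool.Agent.Helper31.HG.ZSPG

open MvPolynomial Pool.Agent.Helper74.HG Pool.Agent.Helper99.HG.ZSP

theorem form_map {σ : Type} [Fintype σ] {A B S : Subring ℂ} (i : A →+* B) (θ' : B →+* S)
    (g : MvPolynomial σ A) (g' : MvPolynomial σ B) (hgg : g' = map i g) (L : List Str)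
    (hF : ∀ (K : Type) [Field K] [Finite K] (ψ : A →+* K), FormG K (map ψ g) L)
    (K : Type) [Field K] [Finite K] (ψ : S →+* K) : FormG K (map ψ (map θ' g')) L := by
  have h : map ψ (map θ' g') = map ((ψ.comp θ').comp i) g := by
    rw [hgg, map_map, map_map]
  rw [h]
  exact hF K _

/-- **ZSPG** -/
theorem t : Pool.Agent.Helper74.HG.ZSPG := by
  classical
  intro σ _ f Z hZ
  obtain ⟨s, g, L, hg, hL, hF, hZL⟩ := hZ
  refine ⟨s, fun s' hs θ g' hg' => ?_⟩
  have hs'' : ∃ s'' : Finset ℂ, ∀ (x : ℂ) (hx : x ∈ (s' : Set ℂ)),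
      θ ⟨x, Subring.subset_closure hx⟩ ∈ Rg s'' := by
    refine ⟨s'.attach.image (fun x => θ ⟨x.1, Subring.subset_closure x.2⟩), fun x hx => ?_⟩
    apply Subring.subset_closure
    exact Finset.mem_coe.2 (Finset.mem_image.2 ⟨⟨x, hx⟩, Finset.mem_attach _ _, rfl⟩)
  obtain ⟨s'', hs''⟩ := hs''
  have hθ : ∀ a : Rg s', θ a ∈ Rg s'' := mem_of_gen (s' : Set ℂ) θ (Rg s'') hs''
  obtain ⟨θ', hθ'⟩ := exists_map (σ := σ) θ hθ
  have hle : Rg s ≤ Rg s' := Subring.closure_mono (Finset.coe_subset.2 hs)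
  have hgg : g' = map (Subring.inclusion hle) g := eq_map hle g g' (hg'.trans hg.symm)
  exact ⟨s'', map θ' g', L, hθ' g', hL, fun K _ _ ψ =>
    form_map (Subring.inclusion hle) θ' g g' hgg L hF K ψ, hZL⟩

end Pool.Agent.Helper31.HG.ZSPG
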